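import Pool.Agent.Y685.Mob.Flat

/-!
# The smallest area of a flat Moebius band filling a circle without shortcuts

For `0 < a ≤ b` the least unnormalised Holmes-Thompson area of the closed Moebius band with a flat
directed Finsler semimetric which fills its boundary circle without shortcuts, the oriented lengths of
the boundary circle being `a` and `b`, is `a (a + b) / 4`.  It is smaller than `a b / 2` if `a < b` and
equal to `a b / 2` if `a = b`.
-/

open scoped ENNReal

namespace Pool.Agent.Results.MP_1fb3ec_gt.FlatBandsSharp

open Pool.Agent.Results.MP_1fb3ec_gt.MobiusBandCounterexample Pool.Agent.Y685.Mob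

/-- For `0 < a ≤ b` the least area of a flat filling without shortcuts of a circle with oriented
lengths `a`, `b` by the Moebius band is `a (a + b) / 4`, and this is less than `a b / 2` exactly if
`a ≠ b`. -/
theorem result (a b : ℝ) (ha : 0 < a) (hab : a ≤ b) :
    IsLeast {A : ℝ≥0∞ | ∃ N : ℝ × ℝ → ℝ, IsFlatFilling a b N ∧ htArea (fun _ => N) = A}
      (ENNReal.ofReal (a * (a + b) / 4)) ∧
    (ENNReal.ofReal (a * (a + b) / 4) < ENNReal.ofReal (a * b / 2) ↔ a ≠ b) := by
  have hb : 0 < b := by linarith
  refine ⟨⟨⟨nrm a b, isFlatFilling_nrm ha hb, htArea_eq ha hb⟩, ?_⟩, ?_⟩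
  · rintro A ⟨N, hN, rfl⟩
    exact htArea_ge hN ha hab
  · rw [ENNReal.ofReal_lt_ofReal_iff (by positivity)]
    constructor
    · rintro h rfl
      nlinarith
    · intro h
      have h1 : a < b := lt_of_le_of_ne hab h
      nlinarith

end Pool.Agent.Results.MP_1fb3ec_gt.FlatBandsSharp
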